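import Mathlib

/-! # The squaring lemma in characteristic two, in the face ring model

`V` a finite set, `L` a simplicial complex on `V`, `N v` (`v ∈ V`) operators of square zero on an
`𝔽₂`-vector space `M`, commuting along the edges of `L`.  The complex `C(M) = M ⊗ 𝔽₂[L]` consists
of the families indexed by the monomials with support in `L`, with differential `∑ N v · t_v`.

Theorem `squaring`: if the cohomology of `C(M ⊗ M)` (primitive action) vanishes in the degrees
`≤ 2 m`, then the cohomology of `C(M)` vanishes in degree `m`. -/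

set_option autoImplicit false
set_option linter.unusedSectionVars false

namespace Pool.Agent.Helper77.SQ

open Finset TensorProduct

variable {V : Type*} [Fintype V] [DecidableEq V]

/-- the differential `∑ N v · t_v ^ k` on the families indexed by monomials -/
noncomputable def dk (L : Finset V → Prop) {M : Type*} [AddCommGroup M] [Module (ZMod 2) M]
    (N : V → M →ₗ[ZMod 2] M) (k : ℕ) (y : (V →₀ ℕ) → M) : (V →₀ ℕ) → M := by
  classical
  exact fun e => if L e.support then
    ∑ v ∈ Finset.univ.filter (fun v => k ≤ e v), N v (y (e - Finsupp.single v k)) else 0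

section basic

variable (L : Finset V → Prop) {M : Type*} [AddCommGroup M] [Module (ZMod 2) M]
  (N : V → M →ₗ[ZMod 2] M)

theorem add_self' {M : Type*} [AddCommGroup M] [Module (ZMod 2) M] (x : M) : x + x = 0 := by
  rw [← two_smul (ZMod 2) x, show (2 : ZMod 2) = 0 from rfl, zero_smul]

theorem neg_self' {M : Type*} [AddCommGroup M] [Module (ZMod 2) M] (x : M) : -x = x :=
  (eq_neg_of_add_eq_zero_left (add_self' x)).symm

theorem sub_eq_add' {M : Type*} [AddCommGroup M] [Module (ZMod 2) M] (x y : M) :
    x - y = x + y := by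
  rw [sub_eq_add_neg, neg_self']

theorem dk_apply_of (k : ℕ) (y : (V →₀ ℕ) → M) {e : V →₀ ℕ} (he : L e.support) :
    dk L N k y e = ∑ v ∈ Finset.univ.filter (fun v => k ≤ e v), N v (y (e - Finsupp.single v k)) := by
  classical
  unfold dk
  rw [if_pos he]

theorem dk_apply_not (k : ℕ) (y : (V →₀ ℕ) → M) {e : V →₀ ℕ} (he : ¬ L e.support) :
    dk L N k y e = 0 := by
  classical
  unfold dk
  rw [if_neg he]

theorem dk_add (k : ℕ) (y y' : (V →₀ ℕ) → M) : dk L N k (y + y') = dk L N k y + dk L N k y' := by
  funext e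
  by_cases he : L e.support
  · simp only [dk_apply_of L N k _ he, Pi.add_apply, map_add, Finset.sum_add_distrib]
  · simp [dk_apply_not L N k _ he]

theorem dk_zero (k : ℕ) : dk L N k (0 : (V →₀ ℕ) → M) = 0 := by
  funext e
  by_cases he : L e.support
  · simp [dk_apply_of L N k _ he]
  · simp [dk_apply_not L N k _ he]

theorem dk_dk {k : ℕ} (hk : 0 < k) (hL : ∀ s t : Finset V, s ⊆ t → L t → L s)
    (h2 : ∀ v x, N v (N v x) = 0) (hc : ∀ u v, u ≠ v → L {u, v} → ∀ x, N u (N v x) = N v (N u x))
    (y : (V →₀ ℕ) → M) : dk L N k (dk L N k y) = 0 := by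
  classical
  funext e
  by_cases he : L e.support
  swap
  · simp [dk_apply_not L N k _ he]
  rw [dk_apply_of L N k _ he]
  have hsub : ∀ v, L (e - Finsupp.single v k).support := fun v =>
    hL _ _ (fun w hw => by
      rw [Finsupp.mem_support_iff] at hw ⊢
      intro h0
      exact hw (by simp [h0])) he
  have h1 : ∀ v ∈ Finset.univ.filter (fun v => k ≤ e v),
      N v (dk L N k y (e - Finsupp.single v k)) =
      ∑ u ∈ Finset.univ.filter (fun u => k ≤ (e - Finsupp.single v k) u),
        N v (N u (y (e - Finsupp.single v k - Finsupp.single u k))) := by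
    intro v _
    rw [dk_apply_of L N k _ (hsub v), map_sum]
  rw [Finset.sum_congr rfl h1, Finset.sum_sigma']
  refine Finset.sum_involution (fun p _ => ⟨p.2, p.1⟩) ?_ ?_ ?_ ?_
  · rintro ⟨v, u⟩ hp
    rw [Finset.mem_sigma, Finset.mem_filter, Finset.mem_filter] at hp
    simp only
    by_cases huv : u = v
    · subst huv
      simp only [h2, add_zero]
    · have hcomm : N u (N v (y (e - Finsupp.single u k - Finsupp.single v k)))
          = N v (N u (y (e - Finsupp.single u k - Finsupp.single v k))) := by
        refine hc u v huv (hL _ _ ?_ he) _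
        intro w hw
        rw [Finset.mem_insert, Finset.mem_singleton] at hw
        rw [Finsupp.mem_support_iff]
        have hv : k ≤ e v := hp.1.2
        have hu : k ≤ (e - Finsupp.single v k) u := hp.2.2
        rw [Finsupp.tsub_apply] at hu
        rcases hw with rfl | rfl
        · omega
        · omega
      rw [hcomm, tsub_right_comm, add_self']
  · rintro ⟨v, u⟩ hp hne heq
    simp only [Sigma.mk.injEq] at heq
    obtain ⟨rfl, -⟩ := heq
    exact hne (h2 _ _)
  · rintro ⟨v, u⟩ hp
    rw [Finset.mem_sigma, Finset.mem_filter, Finset.mem_filter] at hp ⊢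
    simp only [Finset.mem_univ, true_and, Finsupp.tsub_apply] at hp ⊢
    by_cases huv : u = v
    · subst huv
      exact hp
    · rw [Finsupp.single_eq_of_ne huv] at hp
      rw [Finsupp.single_eq_of_ne (Ne.symm huv)]
      simp only [tsub_zero] at hp ⊢
      exact ⟨hp.2, hp.1⟩
  · rintro ⟨v, u⟩ hp
    rfl

end basic


section tensor

variable {M : Type*} [AddCommGroup M] [Module (ZMod 2) M]

/-- the swap -/
noncomputable def sw : M ⊗[ZMod 2] M →ₗ[ZMod 2] M ⊗[ZMod 2] M :=
  (TensorProduct.comm (ZMod 2) M M).toLinearMap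

@[simp] theorem sw_tmul (x y : M) : sw (x ⊗ₜ[ZMod 2] y) = y ⊗ₜ[ZMod 2] x := by
  simp [sw]

@[simp] theorem sw_sw (z : M ⊗[ZMod 2] M) : sw (sw z) = z := by
  unfold sw
  simp

/-- the primitive action -/
noncomputable def NP (N : V → M →ₗ[ZMod 2] M) (v : V) :
    M ⊗[ZMod 2] M →ₗ[ZMod 2] M ⊗[ZMod 2] M := (N v).rTensor M + (N v).lTensor M

theorem NP_tmul (N : V → M →ₗ[ZMod 2] M) (v : V) (x y : M) :
    NP N v (x ⊗ₜ[ZMod 2] y) = N v x ⊗ₜ[ZMod 2] y + x ⊗ₜ[ZMod 2] N v y := by
  simp [NP]

theorem NP_sw (N : V → M →ₗ[ZMod 2] M) (v : V) (z : M ⊗[ZMod 2] M) :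
    NP N v (sw z) = sw (NP N v z) := by
  induction z using TensorProduct.induction_on with
  | zero => simp
  | tmul x y => rw [sw_tmul, NP_tmul, NP_tmul, map_add, sw_tmul, sw_tmul, add_comm]
  | add x y hx hy => simp only [map_add, hx, hy]

theorem NP_NP (N : V → M →ₗ[ZMod 2] M) (h2 : ∀ v x, N v (N v x) = 0) (v : V)
    (z : M ⊗[ZMod 2] M) : NP N v (NP N v z) = 0 := by
  induction z using TensorProduct.induction_on with
  | zero => simp
  | tmul x y =>
    rw [NP_tmul, map_add, NP_tmul, NP_tmul, h2, h2, TensorProduct.zero_tmul,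
      TensorProduct.tmul_zero, zero_add, add_zero]
    exact add_self' _
  | add x y hx hy => simp only [map_add, hx, hy, add_zero]

theorem NP_comm (N : V → M →ₗ[ZMod 2] M) (u v : V) (hc : ∀ x, N u (N v x) = N v (N u x))
    (z : M ⊗[ZMod 2] M) : NP N u (NP N v z) = NP N v (NP N u z) := by
  induction z using TensorProduct.induction_on with
  | zero => simp
  | tmul x y =>
    simp only [NP_tmul, map_add, hc]
    abel
  | add x y hx hy => simp only [map_add, hx, hy]

variable {ι : Type*} (B : Module.Basis ι (ZMod 2) M)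

/-- the diagonal -/
noncomputable def dg : M ⊗[ZMod 2] M →ₗ[ZMod 2] M :=
  TensorProduct.lift (LinearMap.mk₂ (ZMod 2) (fun x y => B.repr.symm (B.repr x * B.repr y))
    (by intro x x' y; rw [map_add, add_mul, map_add])
    (by
      intro c x y
      have h : (c • B.repr x) * B.repr y = c • (B.repr x * B.repr y) := by
        ext i
        simp [mul_assoc]
      rw [map_smul, h, map_smul])
    (by intro x y y'; rw [map_add, mul_add, map_add])
    (by
      intro c x y
      have h : B.repr x * (c • B.repr y) = c • (B.repr x * B.repr y) := by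
        ext i
        simp [mul_left_comm]
      rw [map_smul, h, map_smul]))

theorem dg_tmul (x y : M) : dg B (x ⊗ₜ[ZMod 2] y) = B.repr.symm (B.repr x * B.repr y) := by
  simp [dg]

theorem dg_self (x : M) : dg B (x ⊗ₜ[ZMod 2] x) = x := by
  rw [dg_tmul]
  apply B.repr.injective
  rw [LinearEquiv.apply_symm_apply]
  ext i
  rw [Finsupp.mul_apply]
  generalize B.repr x i = a
  revert a
  decide

theorem dg_sw (z : M ⊗[ZMod 2] M) : dg B (sw z) = dg B z := by
  induction z using TensorProduct.induction_on with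
  | zero => simp
  | tmul x y => rw [sw_tmul, dg_tmul, dg_tmul, mul_comm]
  | add x y hx hy => simp only [map_add, hx, hy]

theorem repr_dg (z : M ⊗[ZMod 2] M) (i : ι) :
    B.repr (dg B z) i = (B.tensorProduct B).repr z (i, i) := by
  induction z using TensorProduct.induction_on with
  | zero => simp
  | tmul x y =>
    rw [dg_tmul, LinearEquiv.apply_symm_apply, Finsupp.mul_apply,
      Module.Basis.tensorProduct_repr_tmul_apply, smul_eq_mul, mul_comm]
  | add x y hx hy => simp only [map_add, hx, hy, Finsupp.add_apply]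

theorem repr_sw (z : M ⊗[ZMod 2] M) (i j : ι) :
    (B.tensorProduct B).repr (sw z) (i, j) = (B.tensorProduct B).repr z (j, i) := by
  induction z using TensorProduct.induction_on with
  | zero => simp
  | tmul x y =>
    rw [sw_tmul, Module.Basis.tensorProduct_repr_tmul_apply,
      Module.Basis.tensorProduct_repr_tmul_apply, smul_eq_mul, smul_eq_mul, mul_comm]
  | add x y hx hy => simp only [map_add, hx, hy, Finsupp.add_apply]

theorem sym_zero (z : M ⊗[ZMod 2] M) (hz : sw z = z) (h0 : dg B z = 0) :
    ∃ x, z = x + sw x := by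
  classical
  let _ : LinearOrder ι := linearOrderOfSTO (WellOrderingRel (α := ι))
  refine ⟨(B.tensorProduct B).repr.symm
    (((B.tensorProduct B).repr z).filter (fun p => p.1 < p.2)), ?_⟩
  apply (B.tensorProduct B).repr.injective
  ext ⟨i, j⟩
  rw [map_add, Finsupp.add_apply, repr_sw, LinearEquiv.apply_symm_apply, Finsupp.filter_apply,
    Finsupp.filter_apply]
  rcases lt_trichotomy i j with h | h | h
  · rw [if_pos h, if_neg (not_lt.mpr h.le), add_zero]
  · subst h
    rw [if_neg (lt_irrefl _), add_zero, ← repr_dg, h0]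
    simp
  · rw [if_neg (not_lt.mpr h.le), if_pos h, zero_add, ← repr_sw, hz]

theorem sym_decomp (z : M ⊗[ZMod 2] M) (hz : sw z = z) :
    ∃ x, z = dg B z ⊗ₜ[ZMod 2] dg B z + (x + sw x) := by
  obtain ⟨x, hx⟩ := sym_zero B (z + dg B z ⊗ₜ[ZMod 2] dg B z)
    (by rw [map_add, hz, sw_tmul]) (by rw [map_add, dg_self, add_self'])
  refine ⟨x, ?_⟩
  rw [← hx, add_comm z, ← add_assoc, add_self', zero_add]

theorem dg_NP (N : V → M →ₗ[ZMod 2] M) (v : V) (z : M ⊗[ZMod 2] M) (hz : sw z = z) :
    dg B (NP N v z) = 0 := by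
  obtain ⟨x, hx⟩ := sym_decomp B z hz
  have h : sw (dg B z ⊗ₜ[ZMod 2] N v (dg B z)) = N v (dg B z) ⊗ₜ[ZMod 2] dg B z := sw_tmul _ _
  rw [hx, map_add, map_add, map_add, NP_sw, NP_tmul, ← h]
  rw [map_add, map_add, dg_sw, dg_sw, add_self', add_self', add_zero]

end tensor

section star

variable (L : Finset V → Prop) {M : Type*} [AddCommGroup M] [Module (ZMod 2) M]
  (N : V → M →ₗ[ZMod 2] M)

/-- the star product: `(y ⋆ y') e = ∑_{a + a' = 2 e} y a ⊗ y' a'` -/
noncomputable def star (y y' : (V →₀ ℕ) → M) : (V →₀ ℕ) → M ⊗[ZMod 2] M := by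
  classical
  exact fun e => if L e.support then
    ∑ p ∈ Finset.HasAntidiagonal.antidiagonal (2 • e), y p.1 ⊗ₜ[ZMod 2] y' p.2 else 0

theorem star_apply_of (y y' : (V →₀ ℕ) → M) {e : V →₀ ℕ} (he : L e.support) :
    star L y y' e = ∑ p ∈ Finset.HasAntidiagonal.antidiagonal (2 • e), y p.1 ⊗ₜ[ZMod 2] y' p.2 := by
  classical
  unfold star
  rw [if_pos he]

theorem star_apply_not (y y' : (V →₀ ℕ) → M) {e : V →₀ ℕ} (he : ¬ L e.support) :
    star L y y' e = 0 := by
  classical
  unfold star
  rw [if_neg he]

theorem sw_star (y y' : (V →₀ ℕ) → M) (e : V →₀ ℕ) : sw (star L y y' e) = star L y' y e := by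
  classical
  by_cases he : L e.support
  swap
  · rw [star_apply_not L _ _ he, star_apply_not L _ _ he, map_zero]
  rw [star_apply_of L _ _ he, star_apply_of L _ _ he, map_sum]
  refine Finset.sum_bij' (fun p _ => p.swap) (fun p _ => p.swap) ?_ ?_ ?_ ?_ ?_
  · intro p hp
    rw [Finset.HasAntidiagonal.mem_antidiagonal] at hp ⊢
    rw [← hp, Prod.fst_swap, Prod.snd_swap, add_comm]
  · intro p hp
    rw [Finset.HasAntidiagonal.mem_antidiagonal] at hp ⊢
    rw [← hp, Prod.fst_swap, Prod.snd_swap, add_comm]
  · intro p _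
    rfl
  · intro p _
    rfl
  · intro p _
    rw [sw_tmul]
    rfl

theorem dg_star {ι : Type*} (B : Module.Basis ι (ZMod 2) M) (y : (V →₀ ℕ) → M) {e : V →₀ ℕ}
    (he : L e.support) : dg B (star L y y e) = y e := by
  classical
  rw [star_apply_of L _ _ he, map_sum]
  have hmem : (e, e) ∈ Finset.HasAntidiagonal.antidiagonal (2 • e) := by
    rw [Finset.HasAntidiagonal.mem_antidiagonal, two_smul]
  rw [← Finset.sum_erase_add _ _ hmem, dg_self]
  have h0 : ∑ p ∈ (Finset.HasAntidiagonal.antidiagonal (2 • e)).erase (e, e),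
      dg B (y p.1 ⊗ₜ[ZMod 2] y p.2) = 0 := by
    refine Finset.sum_involution (fun p _ => p.swap) ?_ ?_ ?_ ?_
    · intro p _
      have h1 : dg B (y p.swap.1 ⊗ₜ[ZMod 2] y p.swap.2) = dg B (y p.1 ⊗ₜ[ZMod 2] y p.2) := by
        rw [Prod.fst_swap, Prod.snd_swap, ← sw_tmul, dg_sw]
      rw [h1, add_self']
    · intro p hp _ heq
      rw [Finset.mem_erase, Finset.HasAntidiagonal.mem_antidiagonal] at hp
      apply hp.1
      have h1 : p.2 = p.1 := congrArg Prod.fst heq
      have h2 : 2 • p.1 = 2 • e := by
        rw [← hp.2, h1, two_smul]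
      have h3 : p.1 = e := by
        ext v
        have := DFunLike.congr_fun h2 v
        simp only [Finsupp.smul_apply, smul_eq_mul] at this
        omega
      exact Prod.ext h3 (h1.trans h3)
    · intro p hp
      rw [Finset.mem_erase, Finset.HasAntidiagonal.mem_antidiagonal] at hp ⊢
      refine ⟨fun h => hp.1 ?_, ?_⟩
      · have := congrArg Prod.swap h
        simpa using this
      · rw [← hp.2, Prod.fst_swap, Prod.snd_swap, add_comm]
    · intro p _
      rfl
  rw [h0, zero_add]

theorem shift1 {A : Type*} [AddCommMonoid A] (e : V →₀ ℕ) (v : V)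
    (f : (V →₀ ℕ) → (V →₀ ℕ) → A) :
    ∑ p ∈ (Finset.HasAntidiagonal.antidiagonal (2 • e)).filter (fun p => 2 ≤ p.1 v),
      f (p.1 - Finsupp.single v 2) p.2 =
    if 1 ≤ e v then ∑ p ∈ Finset.HasAntidiagonal.antidiagonal (2 • (e - Finsupp.single v 1)), f p.1 p.2 else 0 := by
  classical
  split_ifs with hv
  · refine Finset.sum_bij' (fun p _ => (p.1 - Finsupp.single v 2, p.2))
      (fun p _ => (p.1 + Finsupp.single v 2, p.2)) ?_ ?_ ?_ ?_ ?_
    · intro p hp
      rw [Finset.mem_filter, Finset.HasAntidiagonal.mem_antidiagonal] at hp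
      rw [Finset.HasAntidiagonal.mem_antidiagonal]
      ext w
      have h1 := DFunLike.congr_fun hp.1 w
      have h2 := hp.2
      simp only [Finsupp.add_apply, Finsupp.tsub_apply, Finsupp.smul_apply, smul_eq_mul] at h1 ⊢
      by_cases hw : v = w
      · subst hw
        simp only [Finsupp.single_eq_same]
        omega
      · rw [Finsupp.single_eq_of_ne (Ne.symm hw), Finsupp.single_eq_of_ne (Ne.symm hw)]
        omega
    · intro p hp
      rw [Finset.HasAntidiagonal.mem_antidiagonal] at hp
      rw [Finset.mem_filter, Finset.HasAntidiagonal.mem_antidiagonal]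
      constructor
      · ext w
        have h1 := DFunLike.congr_fun hp w
        simp only [Finsupp.add_apply, Finsupp.tsub_apply, Finsupp.smul_apply, smul_eq_mul] at h1 ⊢
        by_cases hw : v = w
        · subst hw
          simp only [Finsupp.single_eq_same] at h1 ⊢
          omega
        · rw [Finsupp.single_eq_of_ne (Ne.symm hw)] at h1
          rw [Finsupp.single_eq_of_ne (Ne.symm hw)]
          omega
      · simp
    · intro p hp
      rw [Finset.mem_filter, Finset.HasAntidiagonal.mem_antidiagonal] at hp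
      refine Prod.ext ?_ rfl
      ext w
      have h2 := hp.2
      simp only [Finsupp.add_apply, Finsupp.tsub_apply]
      by_cases hw : v = w
      · subst hw
        simp only [Finsupp.single_eq_same]
        omega
      · rw [Finsupp.single_eq_of_ne (Ne.symm hw)]
        omega
    · intro p hp
      refine Prod.ext ?_ rfl
      simp
    · intro p hp
      rfl
  · refine Finset.sum_eq_zero ?_
    intro p hp
    rw [Finset.mem_filter, Finset.HasAntidiagonal.mem_antidiagonal] at hp
    have h1 := DFunLike.congr_fun hp.1 v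
    simp only [Finsupp.add_apply, Finsupp.smul_apply, smul_eq_mul] at h1
    omega

theorem shift2 {A : Type*} [AddCommMonoid A] (e : V →₀ ℕ) (v : V)
    (f : (V →₀ ℕ) → (V →₀ ℕ) → A) :
    ∑ p ∈ (Finset.HasAntidiagonal.antidiagonal (2 • e)).filter (fun p => 2 ≤ p.2 v),
      f p.1 (p.2 - Finsupp.single v 2) =
    if 1 ≤ e v then ∑ p ∈ Finset.HasAntidiagonal.antidiagonal (2 • (e - Finsupp.single v 1)), f p.1 p.2 else 0 := by
  classical
  have hsw : ∀ (d : V →₀ ℕ) (g : (V →₀ ℕ) → (V →₀ ℕ) → A),
      ∑ p ∈ Finset.HasAntidiagonal.antidiagonal d, g p.1 p.2 = ∑ p ∈ Finset.HasAntidiagonal.antidiagonal d, g p.2 p.1 := by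
    intro d g
    refine Finset.sum_bij' (fun p _ => p.swap) (fun p _ => p.swap) ?_ ?_ ?_ ?_ ?_
    · intro p hp
      rw [Finset.HasAntidiagonal.mem_antidiagonal] at hp ⊢
      rw [← hp, Prod.fst_swap, Prod.snd_swap, add_comm]
    · intro p hp
      rw [Finset.HasAntidiagonal.mem_antidiagonal] at hp ⊢
      rw [← hp, Prod.fst_swap, Prod.snd_swap, add_comm]
    · intro p _
      rfl
    · intro p _
      rfl
    · intro p _
      rfl
  have h := shift1 e v (fun a b => f b a)
  rw [hsw (2 • (e - Finsupp.single v 1)) f, ← h, Finset.sum_filter, Finset.sum_filter]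
  exact hsw (2 • e) (fun a b => if 2 ≤ b v then f a (b - Finsupp.single v 2) else 0)

theorem dk_star (hL : ∀ s t : Finset V, s ⊆ t → L t → L s) (y y' : (V →₀ ℕ) → M) :
    dk L (NP N) 1 (star L y y') = star L (dk L N 2 y) y' + star L y (dk L N 2 y') := by
  classical
  funext e
  by_cases he : L e.support
  swap
  · rw [dk_apply_not L _ _ _ he, Pi.add_apply, star_apply_not L _ _ he, star_apply_not L _ _ he,
      add_zero]
  have hsub : ∀ v, L (e - Finsupp.single v 1).support := fun v =>
    hL _ _ (fun w hw => by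
      rw [Finsupp.mem_support_iff] at hw ⊢
      intro h0
      exact hw (by simp [h0])) he
  have hsub1 : ∀ p ∈ Finset.HasAntidiagonal.antidiagonal (2 • e), L p.1.support ∧ L p.2.support := by
    intro p hp
    rw [Finset.HasAntidiagonal.mem_antidiagonal] at hp
    constructor
    · refine hL _ _ (fun w hw => ?_) he
      rw [Finsupp.mem_support_iff] at hw ⊢
      have h1 := DFunLike.congr_fun hp w
      simp only [Finsupp.add_apply, Finsupp.smul_apply, smul_eq_mul] at h1
      omega
    · refine hL _ _ (fun w hw => ?_) he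
      rw [Finsupp.mem_support_iff] at hw ⊢
      have h1 := DFunLike.congr_fun hp w
      simp only [Finsupp.add_apply, Finsupp.smul_apply, smul_eq_mul] at h1
      omega
  rw [dk_apply_of L _ _ _ he, Pi.add_apply, star_apply_of L _ _ he, star_apply_of L _ _ he]
  have h1 : ∑ p ∈ Finset.HasAntidiagonal.antidiagonal (2 • e), dk L N 2 y p.1 ⊗ₜ[ZMod 2] y' p.2 =
      ∑ v, if 1 ≤ e v then ∑ p ∈ Finset.HasAntidiagonal.antidiagonal (2 • (e - Finsupp.single v 1)),
        N v (y p.1) ⊗ₜ[ZMod 2] y' p.2 else 0 := by
    have : ∀ p ∈ Finset.HasAntidiagonal.antidiagonal (2 • e), dk L N 2 y p.1 ⊗ₜ[ZMod 2] y' p.2 =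
        ∑ v, if 2 ≤ p.1 v then N v (y (p.1 - Finsupp.single v 2)) ⊗ₜ[ZMod 2] y' p.2 else 0 := by
      intro p hp
      rw [dk_apply_of L N 2 y (hsub1 p hp).1, TensorProduct.sum_tmul, Finset.sum_filter]
    rw [Finset.sum_congr rfl this, Finset.sum_comm]
    refine Finset.sum_congr rfl fun v _ => ?_
    rw [← Finset.sum_filter]
    exact shift1 e v (fun a b => N v (y a) ⊗ₜ[ZMod 2] y' b)
  have h2 : ∑ p ∈ Finset.HasAntidiagonal.antidiagonal (2 • e), y p.1 ⊗ₜ[ZMod 2] dk L N 2 y' p.2 =
      ∑ v, if 1 ≤ e v then ∑ p ∈ Finset.HasAntidiagonal.antidiagonal (2 • (e - Finsupp.single v 1)),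
        y p.1 ⊗ₜ[ZMod 2] N v (y' p.2) else 0 := by
    have : ∀ p ∈ Finset.HasAntidiagonal.antidiagonal (2 • e), y p.1 ⊗ₜ[ZMod 2] dk L N 2 y' p.2 =
        ∑ v, if 2 ≤ p.2 v then y p.1 ⊗ₜ[ZMod 2] N v (y' (p.2 - Finsupp.single v 2)) else 0 := by
      intro p hp
      rw [dk_apply_of L N 2 y' (hsub1 p hp).2, TensorProduct.tmul_sum, Finset.sum_filter]
    rw [Finset.sum_congr rfl this, Finset.sum_comm]
    refine Finset.sum_congr rfl fun v _ => ?_
    rw [← Finset.sum_filter]
    exact shift2 e v (fun a b => y a ⊗ₜ[ZMod 2] N v (y' b))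
  rw [h1, h2, ← Finset.sum_add_distrib, Finset.sum_filter]
  refine Finset.sum_congr rfl fun v _ => ?_
  by_cases hv : 1 ≤ e v
  · rw [if_pos hv, if_pos hv, if_pos hv, star_apply_of L _ _ (hsub v), map_sum,
      ← Finset.sum_add_distrib]
    refine Finset.sum_congr rfl fun p _ => ?_
    rw [NP_tmul]
  · rw [if_neg hv, if_neg hv, if_neg hv, add_zero]

end star


section main

variable (L : Finset V → Prop) {M : Type*} [AddCommGroup M] [Module (ZMod 2) M]
  (N : V → M →ₗ[ZMod 2] M)

/-- families supported in `L` -/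
def SL (L : Finset V → Prop) {M : Type*} [Zero M] (y : (V →₀ ℕ) → M) : Prop :=
  ∀ e : V →₀ ℕ, ¬ L e.support → y e = 0

/-- the swap on families -/
noncomputable def tw (z : (V →₀ ℕ) → M ⊗[ZMod 2] M) : (V →₀ ℕ) → M ⊗[ZMod 2] M :=
  fun e => z e + sw (z e)

theorem tw_tw (z : (V →₀ ℕ) → M ⊗[ZMod 2] M) : tw (tw z) = 0 := by
  funext e
  simp only [tw, map_add, sw_sw, Pi.zero_apply]
  rw [add_comm (sw (z e)), add_self']

theorem tw_add (z z' : (V →₀ ℕ) → M ⊗[ZMod 2] M) : tw (z + z') = tw z + tw z' := by
  funext e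
  simp only [tw, map_add, Pi.add_apply]
  abel

theorem dk_tw (k : ℕ) (z : (V →₀ ℕ) → M ⊗[ZMod 2] M) :
    dk L (NP N) k (tw z) = tw (dk L (NP N) k z) := by
  funext e
  by_cases he : L e.support
  · simp only [tw, dk_apply_of L (NP N) k _ he, map_add, NP_sw, Finset.sum_add_distrib, map_sum]
  · simp [tw, dk_apply_not L (NP N) k _ he]

theorem tw_eq_zero_iff {z : (V →₀ ℕ) → M ⊗[ZMod 2] M} (h : tw z = 0) (e : V →₀ ℕ) :
    sw (z e) = z e := by
  have h1 := congrFun h e
  simp only [tw, Pi.zero_apply] at h1
  have h2 := eq_neg_of_add_eq_zero_right h1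
  rw [h2, neg_self']

theorem add_self_fun {A : Type*} [AddCommGroup A] [Module (ZMod 2) A] (z : (V →₀ ℕ) → A) :
    z + z = 0 := by
  funext e
  exact add_self' _

/-- the diagonal part of an invariant family -/
theorem fam_decomp {ι : Type*} (B : Module.Basis ι (ZMod 2) M)
    (z : (V →₀ ℕ) → M ⊗[ZMod 2] M) (hz : tw z = 0) (hs : SL L z) :
    ∃ x, SL L x ∧ z = star L (fun e => dg B (z e)) (fun e => dg B (z e)) + tw x := by
  classical
  have h1 : ∀ e, L e.support → ∃ x, z e =
      star L (fun e => dg B (z e)) (fun e => dg B (z e)) e + (x + sw x) := by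
    intro e he
    obtain ⟨x, hx⟩ := sym_zero B
      (z e + star L (fun e => dg B (z e)) (fun e => dg B (z e)) e)
      (by rw [map_add, tw_eq_zero_iff hz, sw_star])
      (by rw [map_add, dg_star L B (fun e => dg B (z e)) he, add_self'])
    refine ⟨x, ?_⟩
    rw [← hx, add_comm (z e), ← add_assoc, add_self', zero_add]
  choose x hx using h1
  refine ⟨fun e => if he : L e.support then x e he else 0, ?_, ?_⟩
  · intro e he
    dsimp only
    rw [dif_neg he]
  · funext e
    by_cases he : L e.support
    · rw [Pi.add_apply, tw, dif_pos he]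
      exact hx e he
    · rw [Pi.add_apply, tw, dif_neg he, hs e he, star_apply_not L _ _ he]
      simp

theorem SL_dk {A : Type*} [AddCommGroup A] [Module (ZMod 2) A] (N : V → A →ₗ[ZMod 2] A) (k : ℕ)
    (y : (V →₀ ℕ) → A) : SL L (dk L N k y) := fun _ he => dk_apply_not L N k y he

theorem SL_add {A : Type*} [AddCommGroup A] {y y' : (V →₀ ℕ) → A} (h : SL L y) (h' : SL L y') :
    SL L (y + y') := fun e he => by rw [Pi.add_apply, h e he, h' e he, add_zero]

theorem SL_star (y y' : (V →₀ ℕ) → M) : SL L (star L y y') :=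
  fun _ he => star_apply_not L y y' he

theorem SL_tw {z : (V →₀ ℕ) → M ⊗[ZMod 2] M} (h : SL L z) : SL L (tw z) := fun e he => by
  rw [tw, h e he, map_zero, add_zero]

/-- the Frobenius lift: `yh (2 a) = y a` -/
noncomputable def fr (y : (V →₀ ℕ) → M) : (V →₀ ℕ) → M := by
  classical
  exact fun e => if ∀ v, Even (e v) then y (e.mapRange (fun n => n / 2) rfl) else 0

theorem fr_two (y : (V →₀ ℕ) → M) (a : V →₀ ℕ) : fr y (2 • a) = y a := by
  classical
  unfold fr
  rw [if_pos (fun v => by rw [Finsupp.smul_apply]; exact even_two_mul _)]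
  congr 1
  ext v
  simp

/-- The key statement. -/
theorem key (hL : ∀ s t : Finset V, s ⊆ t → L t → L s)
    (h2 : ∀ v x, N v (N v x) = 0) (hc : ∀ u v, u ≠ v → L {u, v} → ∀ x, N u (N v x) = N v (N u x))
    (yh : (V →₀ ℕ) → M) (hyh : SL L yh) (n : ℕ) :
    ∀ (j : ℕ), j ≤ n → ∀ b : ℕ → ((V →₀ ℕ) → M ⊗[ZMod 2] M), (∀ p, SL L (b p)) →
      (0 < j → tw (b (n - j)) = 0) →
      (∀ p, n - j ≤ p → p + 1 < n → dk L (NP N) 1 (b p) = tw (b (p + 1))) →
      (0 < j → dk L (NP N) 1 (b (n - 1)) = star L yh yh + tw (b n)) →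
      (j = 0 → star L yh yh = tw (b n)) →
      ∃ c, SL L c ∧ dk L N 2 c = yh := by
  classical
  have hcP : ∀ u v, u ≠ v → L {u, v} → ∀ z, NP N u (NP N v z) = NP N v (NP N u z) :=
    fun u v huv hl z => NP_comm N u v (hc u v huv hl) z
  have hdd : ∀ z, dk L (NP N) 1 (dk L (NP N) 1 z) = 0 := fun z =>
    dk_dk L (NP N) one_pos hL (NP_NP N h2) hcP z
  have hdd2 : ∀ z, dk L N 2 (dk L N 2 z) = 0 := fun z => dk_dk L N two_pos hL h2 hc z
  let B := Module.Basis.ofVectorSpace (ZMod 2) M
  -- the diagonal of an element of the image of `1 + T` is zero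
  have hdt : ∀ (z : (V →₀ ℕ) → M ⊗[ZMod 2] M) (e : V →₀ ℕ), dg B (tw z e) = 0 := by
    intro z e
    rw [tw, map_add, dg_sw, add_self']
  have hdd0 : ∀ (z : (V →₀ ℕ) → M ⊗[ZMod 2] M), tw z = 0 → ∀ e : V →₀ ℕ,
      dg B (dk L (NP N) 1 z e) = 0 := by
    intro z hz e
    by_cases he : L e.support
    · rw [dk_apply_of L _ _ _ he, map_sum]
      exact Finset.sum_eq_zero fun v _ => dg_NP B N v _ (tw_eq_zero_iff hz _)
    · rw [dk_apply_not L _ _ _ he, map_zero]
  have hend : ∀ z, star L yh yh = tw z → ∃ c, SL L c ∧ dk L N 2 c = yh := by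
    intro z hz
    have h0 : yh = 0 := by
      funext e
      by_cases he : L e.support
      · have h1 := congrArg (fun f => dg B (f e)) hz
        simp only [hdt] at h1
        rwa [dg_star L B yh he] at h1
      · exact hyh e he
    exact ⟨0, fun _ _ => rfl, by rw [dk_zero, h0]⟩
  intro j
  induction j with
  | zero =>
    intro _ b _ _ _ _ h0
    exact hend _ (h0 rfl)
  | succ j ih =>
    intro hj b hs hb0 hb hbn _
    -- `q = n - (j + 1)`
    set q := n - (j + 1) with hq
    have hq1 : n - j = q + 1 := by omega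
    obtain ⟨x, hxs, hx⟩ := fam_decomp L B (b q) (hb0 (Nat.succ_pos _)) (hs q)
    set c : (V →₀ ℕ) → M := fun e => dg B (b q e) with hc'
    have hcs : SL L c := fun e he => by
      change dg B (b q e) = 0
      rw [hs q e he, map_zero]
    -- the differential of `b q`
    have hdq : dk L (NP N) 1 (b q) = tw (star L c (dk L N 2 c)) + tw (dk L (NP N) 1 x) := by
      rw [hx, dk_add, dk_star L N hL, dk_tw]
      congr 1
      funext e
      rw [tw, sw_star, Pi.add_apply, add_comm]
    rcases Nat.lt_or_ge (q + 1) n with hlt | hge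
    · -- `q + 1 < n`
      have hb1 : tw (b (q + 1)) = tw (star L c (dk L N 2 c)) + tw (dk L (NP N) 1 x) := by
        rw [← hb q le_rfl hlt, hdq]
      -- g
      obtain ⟨g, hg⟩ : ∃ g, g = b (q + 1) + (star L c (dk L N 2 c) + dk L (NP N) 1 x) :=
        ⟨_, rfl⟩
      have hgt : tw g = 0 := by
        rw [hg, tw_add, hb1, tw_add, add_self_fun]
      have hgs : SL L g := by
        rw [hg]
        exact SL_add L (hs _) (SL_add L (SL_star L _ _) (SL_dk L _ _ _))
      have hbg : b (q + 1) = g + (star L c (dk L N 2 c) + dk L (NP N) 1 x) := by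
        rw [hg, add_assoc, add_self_fun, add_zero]
      have hdb1 : dk L (NP N) 1 (b (q + 1)) =
          dk L (NP N) 1 g + star L (dk L N 2 c) (dk L N 2 c) := by
        rw [hbg, dk_add, dk_add, dk_star L N hL, hdd, hdd2, add_zero]
        congr 1
        have : star L c (0 : (V →₀ ℕ) → M) = 0 := by
          funext e
          by_cases he : L e.support
          · rw [star_apply_of L _ _ he]
            simp
          · rw [star_apply_not L _ _ he]
            rfl
        rw [this, add_zero]
      rcases Nat.lt_or_ge (q + 2) n with hlt2 | hge2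
      · -- `q + 2 < n`: then `d2 c = 0`
        have h3 : dk L N 2 c = 0 := by
          funext e
          by_cases he : L e.support
          · have h4 := hb (q + 1) (by omega) hlt2
            rw [hdb1] at h4
            have h5 := congrArg (fun f => dg B (f e)) h4
            simp only [Pi.add_apply, map_add, hdt, hdd0 g hgt, zero_add] at h5
            rwa [dg_star L B (dk L N 2 c) he] at h5
          · exact dk_apply_not L _ _ _ he
        -- the new chain
        refine ih (by omega) (fun p => if p = q + 1 then g else b p) ?_ ?_ ?_ ?_ ?_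
        · intro p
          split_ifs
          · exact hgs
          · exact hs p
        · intro _
          rw [hq1, if_pos rfl, hgt]
        · intro p hp hp1
          have hp2 : p + 1 ≠ q + 1 := by omega
          rw [if_neg hp2]
          by_cases hpq : p = q + 1
          · subst hpq
            rw [if_pos rfl, ← hb (q + 1) (by omega) hp1, hdb1, h3]
            have : star L (0 : (V →₀ ℕ) → M) (0 : (V →₀ ℕ) → M) = 0 := by
              funext e
              by_cases he : L e.support
              · rw [star_apply_of L _ _ he]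
                simp
              · rw [star_apply_not L _ _ he]
                rfl
            rw [this, add_zero]
          · rw [if_neg hpq]
            exact hb p (by omega) hp1
        · intro _
          rw [if_neg (by omega : n - 1 ≠ q + 1), if_neg (by omega : n ≠ q + 1)]
          exact hbn (Nat.succ_pos _)
        · intro hj0
          omega
      · -- `q + 2 = n`: then `d2 c = yh`
        have hn : q + 2 = n := by omega
        refine ⟨c, hcs, ?_⟩
        funext e
        by_cases he : L e.support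
        · have h4 := hbn (Nat.succ_pos _)
          rw [show n - 1 = q + 1 by omega, hdb1] at h4
          have h5 := congrArg (fun f => dg B (f e)) h4
          simp only [Pi.add_apply, map_add, hdt, hdd0 g hgt, zero_add, add_zero] at h5
          rwa [dg_star L B (dk L N 2 c) he, dg_star L B yh he] at h5
        · rw [dk_apply_not L _ _ _ he, hyh e he]
    · -- `q + 1 = n`
      have hn : q + 1 = n := by omega
      have h4 := hbn (Nat.succ_pos _)
      rw [show n - 1 = q by omega, hdq] at h4
      refine hend (star L c (dk L N 2 c) + dk L (NP N) 1 x + b n) ?_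
      rw [tw_add, tw_add, h4, add_assoc, add_self_fun, add_zero]

/-- exactness of the complex of `M` in degree `i` -/
def Ex (i : ℕ) : Prop :=
  ∀ y : (V →₀ ℕ) → M, (∀ a : V →₀ ℕ, ¬ (L a.support ∧ a.degree = i) → y a = 0) →
    dk L N 1 y = 0 →
    ∃ x : (V →₀ ℕ) → M, (∀ a : V →₀ ℕ, ¬ (L a.support ∧ a.degree + 1 = i) → x a = 0) ∧
      dk L N 1 x = y

variable {L N}

theorem dk_fr {y : (V →₀ ℕ) → M} (hy : dk L N 1 y = 0) : dk L N 2 (fr y) = 0 := by
  classical
  funext e
  by_cases he : L e.support
  swap
  · exact dk_apply_not L _ _ _ he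
  rw [dk_apply_of L _ _ _ he, Pi.zero_apply]
  by_cases hev : ∀ v, Even (e v)
  · obtain ⟨a, rfl⟩ : ∃ a : V →₀ ℕ, e = 2 • a := by
      refine ⟨e.mapRange (fun n => n / 2) rfl, ?_⟩
      ext v
      obtain ⟨k, hk⟩ := hev v
      simp only [Finsupp.smul_apply, Finsupp.mapRange_apply, smul_eq_mul]
      omega
    have hsa : (2 • a).support = a.support := by
      ext v
      simp
    have h1 := congrFun hy a
    rw [hsa] at he
    rw [dk_apply_of L _ _ _ he, Pi.zero_apply] at h1
    rw [← h1]
    refine Finset.sum_congr ?_ ?_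
    · ext v
      rw [Finset.mem_filter, Finset.mem_filter, Finsupp.smul_apply, smul_eq_mul]
      constructor
      · rintro ⟨h, h'⟩
        exact ⟨h, by omega⟩
      · rintro ⟨h, h'⟩
        exact ⟨h, by omega⟩
    · intro v _
      have h2 : 2 • a - Finsupp.single v 2 = 2 • (a - Finsupp.single v 1) := by
        ext w
        simp only [Finsupp.tsub_apply, Finsupp.smul_apply, smul_eq_mul]
        by_cases hw : v = w
        · subst hw
          simp only [Finsupp.single_eq_same]
          omega
        · rw [Finsupp.single_eq_of_ne (Ne.symm hw), Finsupp.single_eq_of_ne (Ne.symm hw)]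
          omega
      rw [h2, fr_two]
  · refine Finset.sum_eq_zero fun v hv => ?_
    rw [Finset.mem_filter] at hv
    have : fr y (e - Finsupp.single v 2) = 0 := by
      unfold fr
      rw [if_neg]
      intro h
      apply hev
      intro w
      have h1 := h w
      rw [Finsupp.tsub_apply] at h1
      by_cases hw : v = w
      · subst hw
        rw [Finsupp.single_eq_same] at h1
        have h2 := hv.2
        rw [Nat.even_sub h2] at h1
        exact h1.mpr even_two
      · rw [Finsupp.single_eq_of_ne (Ne.symm hw), tsub_zero] at h1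
        exact h1
    rw [this, map_zero]

/-- THE SQUARING LEMMA. -/
theorem squaring (hL : ∀ s t : Finset V, s ⊆ t → L t → L s)
    (h2 : ∀ v x, N v (N v x) = 0) (hc : ∀ u v, u ≠ v → L {u, v} → ∀ x, N u (N v x) = N v (N u x))
    (m : ℕ) (hP : ∀ i ≤ 2 * m, Ex L (NP N) i) : Ex L N m := by
  classical
  intro y hy hdy
  obtain ⟨n, hn⟩ : ∃ n, n = 2 * m := ⟨_, rfl⟩
  rw [← hn] at hP
  have hyL : SL L y := fun e he => hy e (fun h => he h.1)
  have hfrs : ∀ e : V →₀ ℕ, ¬ (L e.support ∧ e.degree = n) → fr y e = 0 := by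
    intro e he
    by_cases hev : ∀ v, Even (e v)
    · obtain ⟨a, rfl⟩ : ∃ a : V →₀ ℕ, e = 2 • a := by
        refine ⟨e.mapRange (fun n => n / 2) rfl, ?_⟩
        ext v
        obtain ⟨k, hk⟩ := hev v
        simp only [Finsupp.smul_apply, Finsupp.mapRange_apply, smul_eq_mul]
        omega
      rw [fr_two]
      apply hy
      rintro ⟨h1, h2⟩
      apply he
      constructor
      · have hsa : (2 • a).support = a.support := by
          ext v
          simp
        rwa [hsa]
      · rw [map_nsmul, h2, hn, smul_eq_mul]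
    · unfold fr
      rw [if_neg hev]
  have hfrL : SL L (fr y) := fun e he => hfrs e (fun h => he h.1)
  have hY : ∀ e : V →₀ ℕ, ¬ (L e.support ∧ e.degree = n) → star L (fr y) (fr y) e = 0 := by
    intro e he
    by_cases hLe : L e.support
    swap
    · exact star_apply_not L _ _ hLe
    rw [star_apply_of L _ _ hLe]
    refine Finset.sum_eq_zero fun p hp => ?_
    rw [Finset.HasAntidiagonal.mem_antidiagonal] at hp
    by_cases h1 : p.1.degree = n
    · by_cases h2 : p.2.degree = n
      · exfalso
        apply he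
        refine ⟨hLe, ?_⟩
        have h3 := congrArg Finsupp.degree hp
        rw [map_add, map_nsmul, h1, h2, smul_eq_mul] at h3
        omega
      · rw [hfrs p.2 (fun h => h2 h.2), TensorProduct.tmul_zero]
    · rw [hfrs p.1 (fun h => h1 h.2), TensorProduct.zero_tmul]
  have hz1 : star L (0 : (V →₀ ℕ) → M) (fr y) = 0 := by
    funext e
    by_cases he : L e.support
    · rw [star_apply_of L _ _ he]
      simp
    · rw [star_apply_not L _ _ he]
      rfl
  have hz2 : star L (fr y) (0 : (V →₀ ℕ) → M) = 0 := by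
    funext e
    by_cases he : L e.support
    · rw [star_apply_of L _ _ he]
      simp
    · rw [star_apply_not L _ _ he]
      rfl
  have hdY : dk L (NP N) 1 (star L (fr y) (fr y)) = 0 := by
    rw [dk_star L N hL, dk_fr hdy, hz1, hz2, add_zero]
  have htY : tw (star L (fr y) (fr y)) = 0 := by
    funext e
    rw [tw, sw_star, add_self', Pi.zero_apply]
  -- the chain
  have hA : ∀ j ≤ n, ∃ b : ℕ → ((V →₀ ℕ) → M ⊗[ZMod 2] M),
      (∀ p, ∀ e : V →₀ ℕ, ¬ (L e.support ∧ e.degree = p) → b p e = 0) ∧
      (∀ p, n - j ≤ p → p + 1 < n → dk L (NP N) 1 (b p) = tw (b (p + 1))) ∧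
      (0 < j → dk L (NP N) 1 (b (n - 1)) = star L (fr y) (fr y)) ∧ b n = 0 := by
    intro j
    induction j with
    | zero =>
      intro _
      exact ⟨fun _ _ => 0, fun _ _ _ => rfl, fun p hp hp1 => by omega, fun h => by omega, rfl⟩
    | succ j ih =>
      intro hj
      obtain ⟨b, hb1, hb2, hb3, hb4⟩ := ih (by omega)
      obtain ⟨q, hq⟩ : ∃ q, q = n - (j + 1) := ⟨_, rfl⟩
      have hx : ∃ x : (V →₀ ℕ) → M ⊗[ZMod 2] M,
          (∀ e : V →₀ ℕ, ¬ (L e.support ∧ e.degree = q) → x e = 0) ∧
          (q + 1 < n → dk L (NP N) 1 x = tw (b (q + 1))) ∧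
          (q + 1 = n → dk L (NP N) 1 x = star L (fr y) (fr y)) := by
        rcases Nat.lt_or_ge (q + 1) n with hlt | hge
        · obtain ⟨x, hx1, hx2⟩ := hP (q + 1) hlt.le (tw (b (q + 1)))
            (fun e he => by rw [tw, hb1 (q + 1) e he, map_zero, add_zero])
            (by
              rw [dk_tw]
              rcases Nat.lt_or_ge (q + 2) n with hlt2 | hge2
              · rw [hb2 (q + 1) (by omega) hlt2, tw_tw]
              · have : q + 1 = n - 1 := by omega
                rw [this, hb3 (by omega), htY])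
          refine ⟨x, fun e he => hx1 e (fun h => he ⟨h.1, by omega⟩), fun _ => hx2, fun h => ?_⟩
          omega
        · obtain ⟨x, hx1, hx2⟩ := hP n le_rfl (star L (fr y) (fr y)) hY hdY
          exact ⟨x, fun e he => hx1 e (fun h => he ⟨h.1, by omega⟩), fun h => by omega,
            fun _ => hx2⟩
      obtain ⟨x, hx1, hx2, hx3⟩ := hx
      refine ⟨fun p => if p = q then x else b p, ?_, ?_, ?_, ?_⟩
      · intro p e he
        dsimp only
        split_ifs with hpq
        · subst hpq
          exact hx1 e he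
        · exact hb1 p e he
      · intro p hp hp1
        dsimp only
        rw [if_neg (by omega : p + 1 ≠ q)]
        by_cases hpq : p = q
        · subst hpq
          rw [if_pos rfl]
          exact hx2 hp1
        · rw [if_neg hpq]
          exact hb2 p (by omega) hp1
      · intro _
        dsimp only
        by_cases hpq : n - 1 = q
        · rw [if_pos hpq]
          exact hx3 (by omega)
        · rw [if_neg hpq]
          exact hb3 (by omega)
      · dsimp only
        rw [if_neg (by omega : n ≠ q)]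
        exact hb4
  obtain ⟨b, hb1, hb2, hb3, hb4⟩ := hA n le_rfl
  have hbn0 : tw (b n) = 0 := by
    rw [hb4]
    funext e
    simp [tw]
  have hdeg0 : ∀ z : (V →₀ ℕ) → M ⊗[ZMod 2] M,
      (∀ e : V →₀ ℕ, ¬ (L e.support ∧ e.degree = 0) → z e = 0) → dk L (NP N) 1 z = 0 →
      z = 0 := by
    intro z hz hdz
    obtain ⟨x, hx1, hx2⟩ := hP 0 (Nat.zero_le _) z hz hdz
    have : x = 0 := by
      funext e
      exact hx1 e (by omega)
    rw [← hx2, this, dk_zero]
  obtain ⟨c, hcs, hcd⟩ := key L N hL h2 hc (fr y) hfrL n n le_rfl b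
    (fun p e he => hb1 p e (fun h => he h.1))
    (fun hn0 => by
      rw [Nat.sub_self]
      refine hdeg0 _ (fun e he => by rw [tw, hb1 0 e he, map_zero, add_zero]) ?_
      rw [dk_tw]
      rcases Nat.lt_or_ge 1 n with hlt | hge
      · rw [hb2 0 (by omega) (by omega), tw_tw]
      · have hb3' := hb3 hn0
        rw [show n - 1 = 0 by omega] at hb3'
        rw [hb3', htY])
    hb2 (fun hn0 => by rw [hb3 hn0, hbn0, add_zero])
    (fun hn0 => by
      rw [hbn0]
      subst hn0
      exact hdeg0 _ hY hdY)
  -- the even part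
  have hr : dk L N 1 (fun a => c (2 • a)) = y := by
    funext a
    by_cases ha : L a.support
    swap
    · rw [dk_apply_not L _ _ _ ha, hyL a ha]
    have hsa : (2 • a).support = a.support := by
      ext v
      simp
    have h1 := congrFun hcd (2 • a)
    rw [fr_two, dk_apply_of L _ _ _ (by rwa [hsa])] at h1
    rw [dk_apply_of L _ _ _ ha, ← h1]
    refine Finset.sum_congr ?_ ?_
    · ext v
      rw [Finset.mem_filter, Finset.mem_filter, Finsupp.smul_apply, smul_eq_mul]
      constructor
      · rintro ⟨h, h'⟩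
        exact ⟨h, by omega⟩
      · rintro ⟨h, h'⟩
        exact ⟨h, by omega⟩
    · intro v _
      have h2 : 2 • a - Finsupp.single v 2 = 2 • (a - Finsupp.single v 1) := by
        ext w
        simp only [Finsupp.tsub_apply, Finsupp.smul_apply, smul_eq_mul]
        by_cases hw : v = w
        · subst hw
          simp only [Finsupp.single_eq_same]
          omega
        · rw [Finsupp.single_eq_of_ne (Ne.symm hw), Finsupp.single_eq_of_ne (Ne.symm hw)]
          omega
      rw [h2]
  refine ⟨fun a => if a.degree + 1 = m then c (2 • a) else 0, ?_, ?_⟩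
  · intro a ha
    dsimp only
    split_ifs with h
    · refine hcs _ (fun h' => ha ⟨?_, h⟩)
      have hsa : (2 • a).support = a.support := by
        ext v
        simp
      rwa [hsa] at h'
    · rfl
  · rw [← hr]
    funext e
    by_cases he : L e.support
    swap
    · rw [dk_apply_not L _ _ _ he, dk_apply_not L _ _ _ he]
    by_cases hem : e.degree = m
    · rw [dk_apply_of L _ _ _ he, dk_apply_of L _ _ _ he]
      refine Finset.sum_congr rfl fun v hv => ?_
      rw [Finset.mem_filter] at hv
      rw [if_pos]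
      have h1 : e - Finsupp.single v 1 + Finsupp.single v 1 = e :=
        tsub_add_cancel_of_le (Finsupp.single_le_iff.mpr hv.2)
      have h2 := congrArg Finsupp.degree h1
      rw [map_add, Finsupp.degree_single] at h2
      omega
    · have h0 : dk L N 1 (fun a => c (2 • a)) e = 0 := by
        rw [hr]
        exact hy e (fun h => hem h.2)
      rw [h0, dk_apply_of L _ _ _ he]
      refine Finset.sum_eq_zero fun v hv => ?_
      rw [Finset.mem_filter] at hv
      rw [if_neg, map_zero]
      have h1 : e - Finsupp.single v 1 + Finsupp.single v 1 = e :=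
        tsub_add_cancel_of_le (Finsupp.single_le_iff.mpr hv.2)
      have h2 := congrArg Finsupp.degree h1
      rw [map_add, Finsupp.degree_single] at h2
      omega

end main

end Pool.Agent.Helper77.SQ
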